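import Pool.Agent.Helper43.UN.GoalsH

/-! # Project UN: the shape of the regions of pencils (packet ShNk) -/

set_option autoImplicit false

namespace Pool.Agent.Helper33.UN

open Finset
open Pool.Agent.Helper18.UW (lg)
open Pool.Agent.Helper18.SG (GoalT1 blk)
open Helper18.Cusp (Red rr kap rr_wall rr_antitone rr_strict rr_zero)
open Pool.Agent.Helper43.UN

theorem sum_blk (r : ℕ → ℕ) (k R : ℕ) :
    ∑ j ∈ range R, blk r k j = ∑ b ∈ range (k * R), r b := by
  induction R with
  | zero => simp
  | succ n ih =>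
    rw [sum_range_succ, ih, Nat.mul_succ, sum_range_add]
    rfl

theorem goalShNk : GoalShNk := by
  intro _ d M k τ a hred hM hk hτ ha8 h1 h2 h3
  obtain ⟨r, hr⟩ : ∃ r : ℕ → ℕ, rr d a = r := ⟨_, rfl⟩
  obtain ⟨h, hh⟩ : ∃ h : ℕ, kap d a = h := ⟨_, rfl⟩
  have hwall : ∀ b < a 8, r b = h := fun b hb => by
    rw [← hr, ← hh]
    exact rr_wall hred hb
  have hanti : Antitone r := by
    rw [← hr]
    exact rr_antitone hred
  have hh0 : 0 < h := by
    rw [← hh]
    exact hred.kap_pos
  have hstrict : ∀ b, a 8 ≤ b → 0 < r (b + 1) →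
      r (b + 1) < r b ∨ (d = 3 * (b + 1) ∧ r (b + 1) = 1 ∧ 0 < r b) := by
    intro b hb hb1
    rw [← hr] at hb1 ⊢
    exact rr_strict hred hb hb1
  have hzero : ∀ b, d < 3 * b → r b = 0 := by
    intro b hb
    rw [← hr]
    exact rr_zero hb
  rw [hr] at hτ ⊢
  rw [hh] at ha8 h1 h3 ⊢
  have hbig : 16 * M ≤ 2 ^ 400 * lg M ^ 3 * M := by
    refine Nat.mul_le_mul_right M ?_
    calc 16 = 2 ^ 4 := by norm_num
      _ ≤ 2 ^ 400 := Nat.pow_le_pow_right (by norm_num) (by norm_num)
      _ = 2 ^ 400 * 1 := (Nat.mul_one _).symm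
      _ ≤ 2 ^ 400 * lg M ^ 3 :=
        Nat.mul_le_mul_left _ (Nat.one_le_pow _ _ (by unfold lg; omega))
  have hMh : 16 * M ≤ k * h := hbig.trans h1
  have hMR : 16 * M ≤ τ / k + 1 := hbig.trans h2
  have hlam : ∀ j, k * (j + 1) ≤ a 8 → blk r k j = k * h := by
    intro j hj
    rw [blk]
    have : ∀ i ∈ range k, r (k * j + i) = h := by
      intro i hi
      rw [mem_range] at hi
      refine hwall _ ?_
      rw [Nat.mul_succ] at hj
      omega
    rw [sum_congr rfl this, sum_const, card_range, smul_eq_mul]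
  have hkR : ∀ j, j < τ / k + 1 → k * j ≤ τ := by
    intro j hj
    calc k * j ≤ k * (τ / k) := Nat.mul_le_mul_left k (by omega)
      _ ≤ τ := Nat.mul_div_le τ k
  have hblk : ∀ j, blk r k (j + 1) ≤ blk r k j := by
    intro j
    rw [blk, blk]
    refine sum_le_sum fun i _ => hanti ?_
    have : k * j ≤ k * (j + 1) := Nat.mul_le_mul_left k (by omega)
    omega
  have hfar : ∀ j, j ≤ k * h → k * (j + 2) ≤ a 8 := by
    intro j hj
    calc k * (j + 2) = k * j + 2 * k := by ring
      _ ≤ k * (k * h) + 2 * k := Nat.add_le_add_right (Nat.mul_le_mul_left k hj) _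
      _ ≤ a 8 := ha8
  have hfar1 : ∀ j, j ≤ k * h → k * (j + 1) ≤ a 8 := fun j hj =>
    (Nat.mul_le_mul_left k (by omega)).trans (hfar j hj)
  have ha0 : 0 < a 8 := by
    have := hfar 0 (Nat.zero_le _)
    omega
  -- the last row
  have hτ8 : a 8 ≤ τ + 1 := by
    have := (hτ (a 8 - 1)).1 (by
      rw [hwall (a 8 - 1) (by omega)]
      exact hh0)
    omega
  have hdec : ∀ i, a 8 + i + 1 ≤ τ → r (a 8 + i) + i ≤ h := by
    intro i
    induction i with
    | zero =>
      intro _
      have := hanti (show a 8 - 1 ≤ a 8 + 0 by omega)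
      rw [hwall (a 8 - 1) (by omega)] at this
      omega
    | succ i ih =>
      intro hi
      have h5 := ih (by omega)
      have h6 : 0 < r (a 8 + i + 1) := (hτ _).2 (by omega)
      rcases hstrict (a 8 + i) (by omega) h6 with h7 | ⟨h7, -, -⟩
      · have : a 8 + (i + 1) = a 8 + i + 1 := by omega
        rw [this]
        omega
      · exfalso
        have h8 : 0 < r (a 8 + i + 2) := (hτ _).2 (by omega)
        have h9 := hzero (a 8 + i + 2) (by omega)
        omega
  have hτ9 : τ ≤ a 8 + h := by
    by_contra hcon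
    push Not at hcon
    have h5 := hdec (τ - 1 - a 8) (by omega)
    have h6 : 0 < r (a 8 + (τ - 1 - a 8)) := (hτ _).2 (by omega)
    omega
  refine {
    M1 := hM, MMb := le_rfl, hA := h1, hR := h2, hAR := h3, hb := hMR, b9 := by norm_num,
    z := ?_, pos := ?_, anti := ?_, str := ?_, lin := ?_, nine := ?_, area := ?_ }
  · exact hlam 0 (hfar1 0 (Nat.zero_le _))
  · intro j hj
    rw [blk]
    have h5 : 0 < r (k * j + 0) := (hτ _).2 (by
      have := hkR j hj
      omega)
    have h6 : r (k * j + 0) ≤ ∑ i ∈ range k, r (k * j + i) :=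
      single_le_sum (f := fun i => r (k * j + i)) (fun _ _ => Nat.zero_le _)
        (mem_range.2 (by omega))
    omega
  · intro j _
    exact hblk j
  · intro j hj
    rcases Nat.lt_or_ge (blk r k (j + 1)) (blk r k j) with h5 | h5
    · exact Or.inl h5
    right
    have h6 : ∀ i, i < k → r (k * j + i) = r (k * (j + 1) + i) := by
      intro i hi
      by_contra hne
      have h7 : ∀ i ∈ range k, r (k * (j + 1) + i) ≤ r (k * j + i) := by
        intro i _
        refine hanti ?_
        have : k * j ≤ k * (j + 1) := Nat.mul_le_mul_left k (by omega)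
        omega
      have h8 : ∑ i ∈ range k, r (k * (j + 1) + i) < ∑ i ∈ range k, r (k * j + i) :=
        sum_lt_sum h7 ⟨i, mem_range.2 hi, lt_of_le_of_ne (h7 i (mem_range.2 hi)) (Ne.symm hne)⟩
      rw [blk, blk] at h5
      omega
    have hkj : k * (j + 1) = k * j + k := Nat.mul_succ k j
    have hkτ : k * j + k ≤ τ := by
      have := hkR (j + 1) hj
      omega
    have h7 : k * j < a 8 := by
      by_contra hcon
      push Not at hcon
      have e0 := h6 0 (by omega)
      rw [hkj, Nat.add_zero, Nat.add_zero] at e0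
      have e1 := hanti (show k * j ≤ k * j + 1 by omega)
      have e2 := hanti (show k * j + 1 ≤ k * j + 1 + 1 by omega)
      have e3 := hanti (show k * j + 1 + 1 ≤ k * j + k by omega)
      have p1 : 0 < r (k * j + 1) := (hτ _).2 (by omega)
      have p2 : 0 < r (k * j + 1 + 1) := (hτ _).2 (by omega)
      rcases hstrict (k * j) hcon p1 with q1 | ⟨q1, -, -⟩
      · omega
      · rcases hstrict (k * j + 1) (by omega) p2 with q2 | ⟨q2, -, -⟩
        · omega
        · omega
    have h8 : ∀ i ∈ range k, h ≤ r (k * (j + 1) + i) := by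
      intro i hi
      rw [mem_range] at hi
      have e0 := h6 0 (by omega)
      have e1 := h6 (k - 1) (by omega)
      rw [hkj] at e0 e1 ⊢
      rw [Nat.add_zero, Nat.add_zero, hwall _ h7] at e0
      have e2 := hanti (show k * j + k + i ≤ k * j + k + (k - 1) by omega)
      have e3 := hanti (show k * j + (k - 1) ≤ k * j + k by omega)
      omega
    have h9 : k * h ≤ blk r k (j + 1) := by
      rw [blk]
      have := card_nsmul_le_sum (range k) (fun i => r (k * (j + 1) + i)) h h8
      rwa [card_range, smul_eq_mul] at this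
    omega
  · intro j hj
    rw [hlam j (hfar1 j (by omega)), hlam (j + 1) (hfar j (by omega)), Nat.add_zero]
  · intro j hj _
    rw [hlam j (hfar1 j (by omega)), hlam (j + 1) (hfar j (by omega))]
    omega
  · rw [sum_blk]
    have h5 : a 8 ≤ k * (τ / k + 1) := by
      have := Nat.lt_mul_div_succ τ (show 0 < k by omega)
      omega
    have h6 : ∑ b ∈ range (a 8), r b ≤ ∑ b ∈ range (k * (τ / k + 1)), r b :=
      sum_le_sum_of_subset (range_subset_range.2 h5)
    have h7 : ∑ b ∈ range (a 8), r b = a 8 * h := by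
      rw [sum_congr rfl (fun b hb => hwall b (mem_range.1 hb)), sum_const, card_range, smul_eq_mul]
    have h8 : k * (τ / k + 1) ≤ τ + k := by
      have := Nat.mul_div_le τ k
      rw [Nat.mul_succ]
      omega
    have h9 : h + k ≤ a 8 := by
      have e1 : h ≤ k * (k * h) := by
        calc h = 1 * (1 * h) := by ring
          _ ≤ k * (k * h) := Nat.mul_le_mul (by omega) (Nat.mul_le_mul_right h (by omega))
      omega
    calc k * h * (τ / k + 1) = h * (k * (τ / k + 1)) := by ring
      _ ≤ h * (τ + k) := Nat.mul_le_mul_left h h8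
      _ ≤ h * (5 * a 8) := Nat.mul_le_mul_left h (by omega)
      _ = 5 * (a 8 * h) := by ring
      _ ≤ 5 * ∑ b ∈ range (k * (τ / k + 1)), r b := by
        rw [← h7]
        exact Nat.mul_le_mul_left 5 h6

end Pool.Agent.Helper33.UN
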