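import Pool.Agent.Helper43.UN.GoalsR
import Pool.Agent.Helper18.UW.GoalsR

/-! # Project UN: the virtual play satisfies `Vp` (packet VAn) -/

set_option autoImplicit false

namespace Pool.Agent.Helper33.UN

open Finset
open Pool.Agent.Lead.Sh
open Pool.Agent.Helper43.Hw (T na va lz Play aa ac sc oo sk U Dd Sd Pn nx bb np)
open Pool.Agent.Helper18.UW (Par4 UPlay uz UPre uo us vk vx vd Vh GoalU1 GoalV1 GoalV2)
open Pool.Agent.Helper43.UN

/-- the sizes of the parameters -/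
theorem par_sizes {m ms : ℕ → ℕ} {M Mb μ δ R A E0 βp βm N00 N0 N K b l Lg q v : ℕ} {ℓ : ℕ → ℕ}
    {W : ℤ} (hS : Su m ms M Mb μ δ R A E0 βp βm N00 N0 N K b l Lg q v ℓ W) :
    1 ≤ l ∧ 100 * μ ≤ R ∧ 2 ^ 33 * (1280 * (2 ^ q * v)) ≤ μ := by
  refine ⟨hS.par.l1, hS.par.R1, ?_⟩
  have h1 := hS.par.b2
  have h2 : b * l ≤ b * (q + 1) ^ 2 * l := by
    have : b * 1 ≤ b * (q + 1) ^ 2 := Nat.mul_le_mul_left b (Nat.one_le_pow _ _ (by omega))
    rw [mul_one] at this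
    exact Nat.mul_le_mul_right l this
  calc 2 ^ 33 * (1280 * (2 ^ q * v)) ≤ 2 ^ 33 * (b * l) := Nat.mul_le_mul_left _ hS.vb
    _ ≤ 2 ^ 33 * (b * (q + 1) ^ 2 * l) := Nat.mul_le_mul_left _ h2
    _ = 2 ^ 33 * b * (q + 1) ^ 2 * l := by ring
    _ ≤ μ := h1

theorem goalVAn (hU1 : GoalU1) (hV0n : GoalV0n) (hV1 : GoalV1) (hV2 : GoalV2)
    (hV3sn : GoalV3sn) (hV3dn : GoalV3dn) (hV3un : GoalV3un) (hR6an : GoalR6an) : GoalVAn := by
  intro m ms M Mb μ δ R A E0 βp βm N00 N0 N K b l Lg q v τ ℓ W κ x hS hP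
  obtain ⟨hB, hN01, hV⟩ :=
    hV0n m ms M Mb μ δ R A E0 βp βm N00 N0 N K b l Lg q v τ ℓ W κ x hS hP
  refine ⟨hV, ?_⟩
  obtain ⟨N1, hN1⟩ : ∃ N1, aa κ x (R - 56 * μ) = N1 := ⟨_, rfl⟩
  obtain ⟨g, hg⟩ : ∃ g, κ τ = g := ⟨_, rfl⟩
  rw [hN1] at hN01 hV ⊢
  have hd := hV3dn m ms M Mb μ δ R A E0 βp βm N00 N0 N N1 K b l Lg q v τ ℓ W κ x hS hP hB hV
    (le_of_eq hN1.symm)
  have hs := hV3sn m ms M Mb μ δ R A E0 βp βm N00 N0 N N1 K b l Lg q v τ ℓ W κ x hS hB hV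
  have hu := hV3un m ms M Mb μ δ R A E0 βp βm N00 N0 N K b l Lg q v τ ℓ W κ x hS hP
  rw [hg] at hV hd hs hu ⊢
  obtain ⟨hplay, hend, -⟩ := hV1 m μ δ R N N1 g τ κ x hV
  obtain ⟨hl, ho, -, ht⟩ := hV2 m μ δ R N N1 g τ κ x hV
  obtain ⟨hl1, hR1, hv1⟩ := par_sizes hS
  have hgN := hV.gN
  have hN1g := hV.N1g
  have hτJ := hV.tJ
  have hτR : τ < R := by omega
  have hτ1 := hP.t1
  have hR2 : 2 ≤ R := by omega
  have hkτ := (hend τ le_rfl hτR).1
  have hd1 := hS.d1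
  have hcard : N - N1 - vk m μ R N1 g κ τ = N - g := by omega
  have hvv : 1 ≤ 2 ^ q * v := Nat.mul_pos (Nat.pow_pos (by norm_num)) hS.v1
  have hpf := hS.sg.pf
  have hμM := hS.sg.μM
  have hμ1 := hS.sg.μ1
  have hE1 := hpf.E1
  -- the differences
  have hδc : ∀ c ∈ Ico g N, μ - m c ≤ δ := by
    intro c hc
    rw [mem_Ico] at hc
    have := (hS.main c (by omega) hc.2).1
    omega
  have hvl : ∀ y, τ ≤ y → vl m μ R N1 g N τ ℓ κ x y = ℓ y + vd m μ R g N y := by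
    intro y hy
    rw [vl, if_neg (by omega)]
  have hvd : ∀ y, vd m μ R g N y ≤ (N - g) * δ := by
    intro y
    rw [vd]
    refine (sum_le_card_nsmul (Ico g N) _ δ fun c hc =>
      (min_le_left _ _).trans (hδc c hc)).trans (le_of_eq ?_)
    rw [Nat.card_Ico, smul_eq_mul]
  have hvd' : 100 * ((N - g) * δ) ≤ A := by
    have e1 : l * (100 * ((N - g) * δ)) ≤ l * A := by
      have e2 : l * (100 * ((N - g) * δ)) = 100 * δ * (l * (N - g)) := by ring
      have e3 : 100 * δ * (l * (N - g)) ≤ 100 * δ * (140 * μ) := Nat.mul_le_mul_left _ hu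
      have e4 : 100 * δ * 140 ≤ μ := by omega
      have e5 : 100 * δ * (140 * μ) ≤ μ * μ := by
        calc 100 * δ * (140 * μ) = 100 * δ * 140 * μ := by ring
          _ ≤ μ * μ := Nat.mul_le_mul_right _ e4
      have e6 := hS.lo
      rw [e2]
      nlinarith
    exact Nat.le_of_mul_le_mul_left e1 hl1
  refine {
    par := hS.par, bp := hS.bp, bm := hS.bm, d1 := hS.d1, lo := hS.lo, hi := hS.hi, v1 := hS.v1,
    vb := hS.vb, vc := hS.vc, t1 := hP.t1, t2 := hP.t2, play := hplay, ex := ?_, t0 := ?_,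
    t3 := ?_, g2 := ?_, pa := ?_, i0 := ?_, i1 := ?_, i2 := ?_, ll := ?_, un := ?_, oa := ?_,
    su := hs, dd := hd, tot := ?_ }
  · intro z hz
    rw [vl, if_pos hz]
  · rw [hl τ le_rfl hτR, hvl τ le_rfl]
    have := hP.t0
    omega
  · rw [hl τ le_rfl hτR, hvl τ le_rfl]
    have := hP.t3
    omega
  · rw [hkτ]
    omega
  · intro y h1 h2
    rw [hkτ]
    exact hend y h1 h2
  · intro y h1 h2
    rw [hvl y h1, hvl (y + 1) (by omega)]
    have e1 : vd m μ R g N (y + 1) = 0 := by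
      rw [vd]
      refine sum_eq_zero fun c _ => ?_
      have : y + 1 + 1 + μ - R = 0 := by omega
      rw [this, Nat.min_zero]
    have e2 : vd m μ R g N y = 0 := by
      rw [vd]
      refine sum_eq_zero fun c _ => ?_
      have : y + 1 + μ - R = 0 := by omega
      rw [this, Nat.min_zero]
    rw [e1, e2]
    have h3 := hpf.up y (by omega)
    have h4 := hpf.nine y (by omega) (by omega)
    constructor
    · rcases h3 with h3 | h3 | h3 <;> omega
    · omega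
  · intro y h1 h2
    rw [hvl y (by omega), hvl (y + 1) (by omega), hcard]
    have e1 : vd m μ R g N y ≤ vd m μ R g N (y + 1) := by
      rw [vd, vd]
      refine sum_le_sum fun c _ => ?_
      omega
    have e2 : vd m μ R g N (y + 1) ≤ vd m μ R g N y + (N - g) := by
      rw [vd, vd]
      have e3 : N - g = ∑ c ∈ Ico g N, 1 := by
        rw [sum_const, Nat.card_Ico, smul_eq_mul, mul_one]
      rw [e3, ← sum_add_distrib]
      refine sum_le_sum fun c _ => ?_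
      omega
    have h3 := hS.lin y (by omega) h2
    constructor <;> omega
  · intro y h1 h2
    rw [hvl y (by omega), hvl (y + 1) (by omega)]
    have e1 : vd m μ R g N y = vd m μ R g N (y + 1) := by
      rw [vd, vd]
      refine sum_congr rfl fun c hc => ?_
      have := hδc c hc
      omega
    have h3 := hS.lin y (by omega) h2
    rw [e1]
    omega
  · intro y h1 h2
    rw [hvl y h1]
    have e1 := hvd y
    have e2 := hpf.fl y (by omega) h2
    have e3 := hpf.le y h2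
    constructor <;> omega
  · rw [hcard]
    exact hu
  · rw [ho]
    exact hR6an m ms M Mb μ δ R A E0 βp βm N00 N0 N K b l Lg q v τ ℓ W κ x hS hB τ (by omega) le_rfl
  · have h9 := (hU1 m R N κ x hV.m1 hR2 hP.play).2.2.2.2.2.2.2.2
    have e0 : ∀ f : ℕ → ℤ, ∑ z ∈ range R, f z = ∑ z ∈ range τ, f z + ∑ z ∈ Ico τ R, f z := by
      intro f
      rw [range_eq_Ico, range_eq_Ico, sum_Ico_consecutive f (Nat.zero_le τ) hτR.le]
    have a1 : ∑ z ∈ range τ, ((vl m μ R N1 g N τ ℓ κ x z : ℕ) : ℤ) =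
        ∑ z ∈ range τ,
          ((lz μ R (N - N1) (vk m μ R N1 g κ) (vx m μ R N1 g κ x) z : ℕ) : ℤ) := by
      refine sum_congr rfl fun z hz => ?_
      rw [vl, if_pos (mem_range.1 hz)]
    have a2 : ∑ z ∈ Ico τ R, ((vl m μ R N1 g N τ ℓ κ x z : ℕ) : ℤ) =
        ∑ z ∈ Ico τ R, ((ℓ z : ℕ) : ℤ) + ∑ z ∈ Ico τ R, ((vd m μ R g N z : ℕ) : ℤ) := by
      rw [← sum_add_distrib]
      refine sum_congr rfl fun z hz => ?_
      rw [hvl z (mem_Ico.1 hz).1]
      push_cast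
      ring
    have a3 : ∑ z ∈ range τ, ((uz m R N κ x z : ℕ) : ℤ) =
        ∑ z ∈ range τ, ((ℓ z : ℕ) : ℤ) := by
      refine sum_congr rfl fun z hz => ?_
      rw [hP.ex z (mem_range.1 hz)]
    have b1 : ∑ z ∈ range τ,
          ((lz μ R (N - N1) (vk m μ R N1 g κ) (vx m μ R N1 g κ x) z : ℕ) : ℤ) +
        (∑ z ∈ Ico τ R, ((uz m R N κ x z : ℕ) : ℤ) +
          ∑ z ∈ Ico τ R, ((vd m μ R g N z : ℕ) : ℤ)) = ((N - N1 : ℕ) : ℤ) * ((T μ : ℕ) : ℤ) := by
      rw [← sum_add_distrib]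
      exact_mod_cast ht
    have b2 : ∑ z ∈ range τ, ((uz m R N κ x z : ℕ) : ℤ) +
        ∑ z ∈ Ico τ R, ((uz m R N κ x z : ℕ) : ℤ) = ∑ c ∈ range N, ((T (m c) : ℕ) : ℤ) := by
      rw [← e0]
      exact_mod_cast h9
    have b3 := hS.sg.tot
    rw [e0] at b3
    rw [e0, a1, a2]
    linarith

end Pool.Agent.Helper33.UN
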